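import Mathlib
import Pool.Agent.X194.MinSet

/-!
# MP_e6b6d5_an: a system disjoint from all minimal systems whose generic orbit closures do not
have dense minimal points

The space consists of pairs `(λ, x)`, `λ : ℕ × ℕ → {0,1}`, `x : ℤ → {0,1}` such that
`λ(i,N) = 1` implies that every window of length `N + 2i + 1` of `x` contains `i` consecutive
zeros; the map is `(λ, x) ↦ (λ, shift x)`.
-/

namespace Pool.Agent.Results.MP_e6b6d5_an.GenericOrbits

open Set Topology Filter Pool.Agent.X194.MinSet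

universe u v

/-- `(Y,S)` is minimal: it has no proper non-empty closed invariant subset. -/
def IsMinimalSystem {Y : Type u} [TopologicalSpace Y] (S : Y → Y) : Prop :=
  ∀ A : Set Y, IsClosed A → A.Nonempty → MapsTo S A A → A = univ

/-- The closure of the forward orbit. -/
def orbitClosure {X : Type u} [TopologicalSpace X] (T : X → X) (x : X) : Set X :=
  closure {z | ∃ n : ℕ, T^[n] x = z}

/-- `x` is a minimal point: the orbit closure of `x` has no proper non-empty closed invariant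
subset. -/
def IsMinimalPoint {X : Type u} [TopologicalSpace X] (T : X → X) (x : X) : Prop :=
  ∀ A ⊆ orbitClosure T x, IsClosed A → A.Nonempty → MapsTo T A A → A = orbitClosure T x

/-- The orbit closure of `x` has dense minimal points. -/
def OrbitClosureHasDenseMinimalPoints {X : Type u} [TopologicalSpace X] (T : X → X) (x : X) :
    Prop :=
  orbitClosure T x ⊆ closure {z | z ∈ orbitClosure T x ∧ IsMinimalPoint T z}

/-- `J` is a joining of `(X,T)` and `(Y,S)`. -/
def IsJoining {X : Type u} {Y : Type v} [TopologicalSpace X] [TopologicalSpace Y]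
    (T : X → X) (S : Y → Y) (J : Set (X × Y)) : Prop :=
  IsClosed J ∧ J.Nonempty ∧ MapsTo (Prod.map T S) J J ∧ Prod.fst '' J = univ ∧
    Prod.snd '' J = univ

/-- `(X,T)` is disjoint from all minimal systems `(Y,S)`. -/
def DisjointFromAllMinimal {X : Type u} [TopologicalSpace X] (T : X → X) : Prop :=
  ∀ (Y : Type v) [MetricSpace Y] [CompactSpace Y] [Nonempty Y] (S : Y → Y), Continuous S →
    Function.Surjective S → IsMinimalSystem S → ∀ J : Set (X × Y), IsJoining T S J → J = univ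

/-! ### the space -/

/-- coordinates: `inl (i,N)` for `λ`, `inr j` for `x` -/
abbrev Idx : Type := (ℕ × ℕ) ⊕ ℤ

/-- every window of length `N + 2i + 1` contains `i` consecutive zeros -/
def Win (i N : ℕ) (x : ℤ → Bool) : Prop :=
  ∀ t : ℤ, ∃ s : ℤ, t ≤ s ∧ s + i ≤ t + (N + 2 * i + 1) ∧ ∀ j : ℤ, s ≤ j → j < s + i → x j = false

/-- the space -/
def XX : Set (Idx → Bool) :=
  {f | ∀ i N : ℕ, f (Sum.inl (i, N)) = true → Win i N (fun j => f (Sum.inr j))}

lemma isClosed_XX : IsClosed XX := by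
  have h0 : XX = ⋂ i : ℕ, ⋂ N : ℕ, ⋂ t : ℤ, ({f : Idx → Bool | f (Sum.inl (i, N)) = false} ∪
      ⋃ s ∈ Icc t (t + (N + i + 1)), ⋂ j ∈ Ico s (s + i), {f : Idx → Bool | f (Sum.inr j) = false}) := by
    ext f
    simp only [XX, mem_ofPred_eq, mem_iInter, mem_union, mem_iUnion, mem_Icc, mem_Ico, exists_prop]
    constructor
    · intro h i N t
      cases hf : f (Sum.inl (i, N)) with
      | false => exact Or.inl rfl
      | true =>
        obtain ⟨s, h1, h2, h3⟩ := h i N hf t
        exact Or.inr ⟨s, ⟨h1, by omega⟩, fun j hj => h3 j hj.1 hj.2⟩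
    · intro h i N hf t
      rcases h i N t with h1 | ⟨s, ⟨h1, h2⟩, h3⟩
      · rw [hf] at h1; exact absurd h1 (by simp)
      · exact ⟨s, h1, by omega, fun j h4 h5 => h3 j ⟨h4, h5⟩⟩
  have hcl : ∀ a : Idx, IsClosed {f : Idx → Bool | f a = false} := fun a =>
    isClosed_eq (continuous_apply a) continuous_const
  rw [h0]
  refine isClosed_iInter fun i => isClosed_iInter fun N => isClosed_iInter fun t => ?_
  refine (hcl _).union ((finite_Icc _ _).isClosed_biUnion fun s _ => ?_)
  exact isClosed_biInter fun j _ => hcl _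

instance : CompactSpace XX := isCompact_iff_compactSpace.1 isClosed_XX.isCompact

/-- the shift on coordinates -/
def shIdx : Idx → Idx := Sum.map id (fun j => j + 1)

lemma Win_shift {i N : ℕ} {x : ℤ → Bool} (h : Win i N x) (c : ℤ) : Win i N (fun j => x (j + c)) := by
  intro t
  obtain ⟨s, h1, h2, h3⟩ := h (t + c)
  exact ⟨s - c, by omega, by omega, fun j h4 h5 => h3 (j + c) (by omega) (by omega)⟩

/-- the map -/
def T (f : XX) : XX := ⟨fun a => f.1 (shIdx a), fun i N h => Win_shift (f.2 i N h) 1⟩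

lemma continuous_T : Continuous T := by
  refine Continuous.subtype_mk ?_ _
  exact continuous_pi fun a => (continuous_apply (shIdx a)).comp continuous_subtype_val

lemma T_iter_inl (n : ℕ) (f : XX) (c : ℕ × ℕ) : (T^[n] f).1 (Sum.inl c) = f.1 (Sum.inl c) := by
  induction n generalizing f with
  | zero => rfl
  | succ n ih => rw [Function.iterate_succ_apply, ih]; rfl

lemma T_iter_inr (n : ℕ) (f : XX) (j : ℤ) : (T^[n] f).1 (Sum.inr j) = f.1 (Sum.inr (j + n)) := by
  induction n generalizing f with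
  | zero => simp
  | succ n ih =>
    rw [Function.iterate_succ_apply, ih]
    show f.1 (Sum.inr (j + n + 1)) = _
    rw [show (j + n + 1 : ℤ) = j + ((n + 1 : ℕ) : ℤ) by push_cast; ring]

lemma surj_T : Function.Surjective T := by
  intro g
  refine ⟨⟨fun a => g.1 (Sum.map id (fun j : ℤ => j - 1) a), fun i N h => ?_⟩, ?_⟩
  · have := Win_shift (g.2 i N h) (-1)
    simpa [sub_eq_add_neg] using this
  · apply Subtype.ext
    funext a
    rcases a with c | j
    · rfl
    · show g.1 (Sum.inr (j + 1 - 1)) = g.1 (Sum.inr j)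
      rw [add_sub_cancel_right]

/-- neighbourhoods -/
lemma exists_nbhd {O : Set XX} (hO : IsOpen O) {p : XX} (hp : p ∈ O) :
    ∃ (F : Finset (ℕ × ℕ)) (M : ℕ), ∀ q : XX, (∀ c ∈ F, q.1 (Sum.inl c) = p.1 (Sum.inl c)) →
      (∀ j : ℤ, -(M : ℤ) ≤ j → j ≤ M → q.1 (Sum.inr j) = p.1 (Sum.inr j)) → q ∈ O := by
  obtain ⟨O', hO', rfl⟩ := isOpen_induced_iff.1 hO
  obtain ⟨I, w, hw, hsub⟩ := isOpen_pi_iff.1 hO' p.1 hp
  refine ⟨I.toLeft, I.toRight.sup Int.natAbs, fun q hq1 hq2 => hsub ?_⟩
  intro a ha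
  have ha' : a ∈ I := ha
  rcases a with c | j
  · rw [hq1 c (Finset.mem_toLeft.2 ha')]
    exact (hw _ ha').2
  · have h1 : Int.natAbs j ≤ I.toRight.sup Int.natAbs :=
      Finset.le_sup (f := Int.natAbs) (Finset.mem_toRight.2 ha')
    rw [hq2 j (by omega) (by omega)]
    exact (hw _ ha').2

/-- a finitely supported sequence satisfies the window condition for large `N` -/
lemma Win_of_support {i N M : ℕ} (hN : 2 * M + 1 ≤ N) {x : ℤ → Bool}
    (hx : ∀ j : ℤ, x j = true → -(M : ℤ) ≤ j ∧ j ≤ M) : Win i N x := by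
  have hx' : ∀ j : ℤ, (j < -(M : ℤ) ∨ (M : ℤ) < j) → x j = false := by
    intro j hj
    by_contra h
    have := hx j (by simpa using h)
    omega
  intro t
  by_cases h1 : t + i ≤ -(M : ℤ)
  · exact ⟨t, le_rfl, by omega, fun j h2 h3 => hx' j (Or.inl (by omega))⟩
  · exact ⟨t + (N + i + 1), by omega, by omega, fun j h2 h3 => hx' j (Or.inr (by omega))⟩

/-- a sequence with a single `1` satisfies all window conditions -/
lemma Win_of_single (i N : ℕ) (p : ℤ) : Win i N (fun j => decide (j = p)) := by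
  intro t
  by_cases h1 : t ≤ p ∧ p < t + i
  · refine ⟨t + i + 1, by omega, by omega, fun j h2 h3 => ?_⟩
    simp only [decide_eq_false_iff_not]; omega
  · refine ⟨t, le_rfl, by omega, fun j h2 h3 => ?_⟩
    simp only [decide_eq_false_iff_not]; omega

/-- heredity -/
lemma Win_mono {i N : ℕ} {x y : ℤ → Bool} (h : Win i N x) (hxy : ∀ j, y j = true → x j = true) :
    Win i N y := by
  intro t
  obtain ⟨s, h1, h2, h3⟩ := h t
  refine ⟨s, h1, h2, fun j h4 h5 => ?_⟩
  by_contra h6
  have h7 := hxy j (by simpa using h6)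
  rw [h3 j h4 h5] at h7
  exact absurd h7 (by simp)

/-- the generic condition on `λ` -/
def U (i : ℕ) : Set XX := {f | ∃ N, f.1 (Sum.inl (i, N)) = true}

/-- the points with `x ≠ 0` -/
def V : Set XX := {f | ∃ j, f.1 (Sum.inr j) = true}

lemma isOpen_coord (a : Idx) : IsOpen {f : XX | f.1 a = true} := by
  have h : Continuous fun f : XX => f.1 a := (continuous_apply a).comp continuous_subtype_val
  exact (isOpen_discrete ({true} : Set Bool)).preimage h

lemma isOpen_U (i : ℕ) : IsOpen (U i) := by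
  have : U i = ⋃ N, {f : XX | f.1 (Sum.inl (i, N)) = true} := by ext f; simp [U]
  rw [this]
  exact isOpen_iUnion fun N => isOpen_coord _

lemma isOpen_V : IsOpen V := by
  have : V = ⋃ j, {f : XX | f.1 (Sum.inr j) = true} := by ext f; simp [V]
  rw [this]
  exact isOpen_iUnion fun N => isOpen_coord _

lemma dense_U (i : ℕ) : Dense (U i) := by
  refine dense_iff_inter_open.2 fun O hO hne => ?_
  obtain ⟨p, hp⟩ := hne
  obtain ⟨F, M, hFM⟩ := exists_nbhd hO hp
  set N₀ := 2 * M + 1 + F.sup Prod.snd + 1 with hN₀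
  have hnot : (i, N₀) ∉ F := by
    intro h
    have := Finset.le_sup (f := Prod.snd) h
    simp only at this
    omega
  refine ⟨⟨fun a => match a with
    | Sum.inl c => p.1 (Sum.inl c) || decide (c = (i, N₀))
    | Sum.inr j => p.1 (Sum.inr j) && decide (-(M : ℤ) ≤ j ∧ j ≤ M), ?_⟩, hFM _ ?_ ?_, N₀, ?_⟩
  · intro i' N' h
    simp only [Bool.or_eq_true, decide_eq_true_eq] at h
    rcases h with h | h
    · refine Win_mono (p.2 i' N' h) fun j hj => ?_
      simp only [Bool.and_eq_true] at hj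
      exact hj.1
    · have hN' : N' = N₀ := congrArg Prod.snd h
      refine Win_of_support (M := M) (by omega) fun j hj => ?_
      simp only [Bool.and_eq_true, decide_eq_true_eq] at hj
      exact hj.2
  · intro c hc
    have hne : c ≠ (i, N₀) := fun h => hnot (h ▸ hc)
    simp [hne]
  · intro j h1 h2
    simp [h1, h2]
  · simp

lemma dense_V : Dense V := by
  refine dense_iff_inter_open.2 fun O hO hne => ?_
  obtain ⟨p, hp⟩ := hne
  by_cases hpV : p ∈ V
  · exact ⟨p, hp, hpV⟩
  have hp0 : ∀ j, p.1 (Sum.inr j) = false := by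
    intro j
    by_contra h
    exact hpV ⟨j, by simpa using h⟩
  obtain ⟨F, M, hFM⟩ := exists_nbhd hO hp
  refine ⟨⟨fun a => match a with
    | Sum.inl c => p.1 (Sum.inl c)
    | Sum.inr j => decide (j = (M : ℤ) + 1), ?_⟩, hFM _ ?_ ?_, (M : ℤ) + 1, ?_⟩
  · intro i' N' _
    exact Win_of_single i' N' _
  · intro c _
    rfl
  · intro j _ h2
    rw [hp0]
    simp only [decide_eq_false_iff_not]
    omega
  · simp

/-- the fixed point in the fibre of `f` -/
def zeroPt (f : XX) : XX := ⟨fun a => match a with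
    | Sum.inl c => f.1 (Sum.inl c)
    | Sum.inr _ => false, fun _ _ _ t => ⟨t, le_rfl, by omega, fun _ _ _ => rfl⟩⟩

lemma T_zeroPt (f : XX) : T (zeroPt f) = zeroPt f := by
  apply Subtype.ext
  funext a
  rcases a with c | j <;> rfl

lemma inl_of_mem_orbitClosure {f z : XX} (hz : z ∈ orbitClosure T f) (c : ℕ × ℕ) :
    z.1 (Sum.inl c) = f.1 (Sum.inl c) := by
  have hcl : IsClosed {g : XX | g.1 (Sum.inl c) = f.1 (Sum.inl c)} :=
    isClosed_eq ((continuous_apply _).comp continuous_subtype_val) continuous_const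
  have hsub : {z | ∃ n : ℕ, T^[n] f = z} ⊆ {g : XX | g.1 (Sum.inl c) = f.1 (Sum.inl c)} := by
    rintro _ ⟨n, rfl⟩
    exact T_iter_inl n f c
  exact closure_minimal hsub hcl hz

lemma zeroPt_mem {f z : XX} (hf : ∀ i, f ∈ U i) (hz : z ∈ orbitClosure T f) :
    zeroPt f ∈ orbitClosure T z := by
  refine mem_closure_iff.2 fun O hO hzO => ?_
  obtain ⟨F, M, hFM⟩ := exists_nbhd hO hzO
  obtain ⟨N, hN⟩ := hf (2 * M + 1)
  rw [← inl_of_mem_orbitClosure hz] at hN
  obtain ⟨s, h1, h2, h3⟩ := z.2 _ _ hN M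
  have h4 : ((s + M).toNat : ℤ) = s + M := Int.toNat_of_nonneg (by omega)
  refine ⟨T^[(s + M).toNat] z, hFM _ ?_ ?_, _, rfl⟩
  · intro c _
    rw [T_iter_inl, inl_of_mem_orbitClosure hz]
    rfl
  · intro j h5 h6
    rw [T_iter_inr, h4]
    exact h3 _ (by omega) (by push_cast; omega)

lemma generic_bad {f : XX} (hf : ∀ i, f ∈ U i) (hV : f ∈ V) :
    ¬ OrbitClosureHasDenseMinimalPoints T f := by
  intro h
  have hmin : {z | z ∈ orbitClosure T f ∧ IsMinimalPoint T z} ⊆ {zeroPt f} := by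
    rintro z ⟨hz, hzmin⟩
    have h1 := hzmin {zeroPt f} (singleton_subset_iff.2 (zeroPt_mem hf hz)) isClosed_singleton
      (singleton_nonempty _) (by
        intro w hw
        rw [mem_singleton_iff] at hw ⊢
        rw [hw, T_zeroPt])
    rw [h1]
    exact subset_closure ⟨0, rfl⟩
  have h2 : f ∈ orbitClosure T f := subset_closure ⟨0, rfl⟩
  have h3 := closure_minimal hmin isClosed_singleton (h h2)
  rw [mem_singleton_iff] at h3
  obtain ⟨j, hj⟩ := hV
  rw [h3] at hj
  simp [zeroPt] at hj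

/-- the concatenation of copies of the central block of `x` at the places of `C` -/
noncomputable def cat (C : Set ℕ) (M : ℕ) (x : ℤ → Bool) : ℤ → Bool := by
  classical
  exact fun j => decide (∃ c ∈ C, -(M : ℤ) ≤ j - c ∧ j - c ≤ M ∧ x (j - c) = true)

lemma cat_true {C : Set ℕ} {M : ℕ} {x : ℤ → Bool} {j : ℤ} :
    cat C M x j = true ↔ ∃ c ∈ C, -(M : ℤ) ≤ j - c ∧ j - c ≤ M ∧ x (j - c) = true := by
  simp [cat]

lemma cat_block {C : Set ℕ} {M k : ℕ} (hk : 2 * M + 1 ≤ k) {x : ℤ → Bool}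
    (hC : ∀ c ∈ C, ∀ c' ∈ C, c < c' → c + k ≤ c') {c : ℕ} (hc : c ∈ C) {j : ℤ}
    (h1 : -(M : ℤ) ≤ j) (h2 : j ≤ M) : cat C M x (j + c) = x j := by
  rw [Bool.eq_iff_iff, cat_true]
  constructor
  · rintro ⟨c', hc', h3, h4, h5⟩
    rcases lt_trichotomy c c' with h | h | h
    · have := hC c hc c' hc' h
      omega
    · subst h
      simpa using h5
    · have := hC c' hc' c hc h
      omega
  · intro h
    exact ⟨c, hc, by omega, by omega, by simpa using h⟩

lemma Win_cat {C : Set ℕ} {M k i N : ℕ} (hk : 2 * M + 1 + (N + 2 * i + 1) ≤ k) {x : ℤ → Bool}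
    (hx : Win i N x) (hC : ∀ c ∈ C, ∀ c' ∈ C, c < c' → c + k ≤ c') : Win i N (cat C M x) := by
  intro t
  by_cases h : ∃ c ∈ C, t ≤ (c : ℤ) + M ∧ (c : ℤ) - M < t + (N + 2 * i + 1)
  · obtain ⟨c, hc, h1, h2⟩ := h
    obtain ⟨s, h3, h4, h5⟩ := hx (t - c)
    refine ⟨s + c, by omega, by omega, fun j h6 h7 => ?_⟩
    by_contra h8
    rw [Bool.not_eq_false, cat_true] at h8
    obtain ⟨c', hc', h9, h10, h11⟩ := h8
    have hcc : c' = c := by
      rcases lt_trichotomy c c' with h | h | h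
      · have := hC c hc c' hc' h
        omega
      · exact h.symm
      · have := hC c' hc' c hc h
        omega
    subst hcc
    rw [h5 (j - c') (by omega) (by omega)] at h11
    exact absurd h11 (by simp)
  · refine ⟨t, le_rfl, by omega, fun j h6 h7 => ?_⟩
    by_contra h8
    rw [Bool.not_eq_false, cat_true] at h8
    obtain ⟨c', hc', h9, h10, h11⟩ := h8
    exact h ⟨c', hc', by omega, by omega⟩

lemma disjoint_T : DisjointFromAllMinimal.{0, v} T := by
  intro Y _ _ _ S hS _ hmin J hJ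
  obtain ⟨hJc, -, hJi, hJ1, -⟩ := hJ
  refine eq_univ_of_forall ?_
  rintro ⟨f, y⟩
  rw [← hJc.closure_eq]
  refine mem_closure_iff.2 fun O hO hfO => ?_
  obtain ⟨O₁, V₁, hO₁, hV₁, hf, hy, hsub⟩ := isOpen_prod_iff.1 hO f y hfO
  obtain ⟨F, M, hFM⟩ := exists_nbhd hO₁ hf
  set k := 2 * M + 1 + F.sup (fun c => c.2 + 2 * c.1 + 1) with hk
  obtain ⟨N, hN⟩ := exists_hit hS hmin hV₁ ⟨y, hy⟩ (k := k) (by omega)
  have hgap : ∀ c ∈ Cs k N, ∀ c' ∈ Cs k N, c < c' → c + k ≤ c' := fun c hc c' hc' h =>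
    Cs_gap hc hc' h
  -- the special point
  let g : XX := ⟨fun a => match a with
    | Sum.inl c => f.1 (Sum.inl c) && decide (c ∈ F)
    | Sum.inr j => cat (Cs k N) M (fun j => f.1 (Sum.inr j)) j, by
      intro i' N' h
      simp only [Bool.and_eq_true, decide_eq_true_eq] at h
      refine Win_cat (k := k) ?_ (f.2 i' N' h.1) hgap
      have := Finset.le_sup (f := fun c : ℕ × ℕ => c.2 + 2 * c.1 + 1) h.2
      simp only at this
      omega⟩
  have hg : g ∈ Prod.fst '' J := by rw [hJ1]; trivial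
  obtain ⟨⟨g', y'⟩, hgJ, hgg⟩ := hg
  simp only at hgg
  subst hgg
  obtain ⟨c, hc, hcV⟩ := hN y'
  refine ⟨(T^[c] g, S^[c] y'), hsub ⟨hFM _ ?_ ?_, hcV⟩, ?_⟩
  · intro c' hc'
    rw [T_iter_inl]
    simp [g, hc']
  · intro j h1 h2
    rw [T_iter_inr]
    exact cat_block (x := fun j => f.1 (Sum.inr j)) (k := k) (by omega) hgap hc h1 h2
  · have : (Prod.map T S)^[c] (g, y') ∈ J := hJi.iterate c hgJ
    rwa [Prod.map_iterate] at this

/-- **Disproof of Q1.** -/
theorem result : ∃ (X : Type) (_ : MetricSpace X) (_ : CompactSpace X) (T : X → X),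
    Nonempty X ∧ Continuous T ∧ Function.Surjective T ∧ DisjointFromAllMinimal.{0, v} T ∧
    ∀ Ω : Set X, IsGδ Ω → Dense Ω → ∃ x ∈ Ω, ¬ OrbitClosureHasDenseMinimalPoints T x := by
  let m : MetricSpace XX := TopologicalSpace.metrizableSpaceMetric XX
  have hne : Nonempty XX := ⟨⟨fun _ => false, fun _ _ h => by simp at h⟩⟩
  refine ⟨XX, m, inferInstance, T, hne, continuous_T, surj_T, disjoint_T, ?_⟩
  intro Ω hΩ hΩd
  have h1 : Ω ∈ residual XX := residual_of_dense_Gδ hΩ hΩd
  have h2 : (⋂ i, U i) ∈ residual XX :=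
    countable_iInter_mem.2 fun i => residual_of_dense_open (isOpen_U i) (dense_U i)
  have h3 : V ∈ residual XX := residual_of_dense_open isOpen_V dense_V
  obtain ⟨f, ⟨hf1, hf2⟩, hf3⟩ := (dense_of_mem_residual (inter_mem (inter_mem h1 h2) h3)).nonempty
  exact ⟨f, hf1, generic_bad (fun i => mem_iInter.1 hf2 i) hf3⟩

end Pool.Agent.Results.MP_e6b6d5_an.GenericOrbits
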